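import Pool.Agent.H559.BI.Fin
import Pool.Agent.H559.BI.Inv
import Pool.Agent.H559.BI.Seq
import Pool.Agent.H559.PV.SPos

set_option autoImplicit false

/-! # Patterns of Cunningham sequences in the random primes: the asymptotic formula -/

open Finset MeasureTheory ProbabilityTheory Filter Topology Polynomial
open Pool.Agent.T2H32.BF (Model V V_pos V_anti)
open Pool.Agent.H559.BS (Limit log_top)
open Pool.Agent.H559.HY (RS Sys omF CF OK Cut)
open Pool.Agent.H559.BI (cI)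

namespace Pool.Agent.H559.CC

/-- the term at time `t` as a polynomial -/
noncomputable def tp (t : ℕ) : ℤ[X] := C ((2 : ℤ) ^ t) * X + C 1

theorem tp_eval (t n : ℕ) : (tp t).eval (n : ℤ) = ((2 ^ t * n + 1 : ℕ) : ℤ) := by
  unfold tp
  rw [eval_add, eval_mul, eval_C, eval_X, eval_C]
  push_cast
  rfl

theorem tp_c0 (t : ℕ) : (tp t).coeff 0 = 1 := by
  unfold tp
  simp

theorem tp_c1 (t : ℕ) : (tp t).coeff 1 = 2 ^ t := by
  unfold tp
  rw [coeff_add, coeff_C_mul, coeff_X_one, mul_one, coeff_C_of_ne_zero one_ne_zero, add_zero]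

theorem tp_inj : Function.Injective tp := by
  intro s t h
  have h1 : (tp s).coeff 1 = (tp t).coeff 1 := by rw [h]
  rw [tp_c1, tp_c1] at h1
  exact Int.pow_right_injective (by norm_num) h1

theorem tp_irr (t : ℕ) : Irreducible (tp t) := by
  unfold tp
  exact irreducible_C_mul_X_add_C (by positivity) isRelPrime_one_right

theorem tp_deg (t : ℕ) : (tp t).natDegree = 1 := by
  unfold tp
  exact natDegree_linear (by positivity)

theorem tp_lead (t : ℕ) : 0 < (tp t).leadingCoeff := by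
  unfold leadingCoeff
  rw [tp_deg, tp_c1]
  positivity

/-- the system of the times `B` -/
noncomputable def FB (B : Finset ℕ) : Finset ℤ[X] := B.image tp

theorem FB_card (B : Finset ℕ) : (FB B).card = B.card := card_image_of_injective B tp_inj

theorem FB_sys (B : Finset ℕ) : Sys (FB B) := by
  constructor
  · intro f hf
    obtain ⟨t, _, rfl⟩ := mem_image.1 hf
    exact ⟨tp_irr t, by rw [tp_deg]; exact one_pos⟩
  · intro f hf g hg _ h
    obtain ⟨s, _, rfl⟩ := mem_image.1 hf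
    obtain ⟨t, _, rfl⟩ := mem_image.1 hg
    have h1 : (tp s).coeff 0 = (-tp t).coeff 0 := by rw [h]
    rw [coeff_neg, tp_c0, tp_c0] at h1
    norm_num at h1

/-- the number of the zeros modulo `p` of the terms at the times `B` -/
def om (B : Finset ℕ) (p : ℕ) : ℕ := ((range p).filter fun n : ℕ => p ∣ ∏ t ∈ B, (2 ^ t * n + 1)).card

/-- the partial products of the constant -/
noncomputable def pC (B : Finset ℕ) (x : ℕ) : ℝ :=
  ∏ p ∈ (range (x + 1)).filter Nat.Prime, (1 - (om B p : ℝ) / p) / (1 - 1 / (p : ℝ)) ^ B.card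

theorem om_eq (B : Finset ℕ) (p : ℕ) : omF (FB B) p = om B p := by
  unfold omF om
  congr 1
  refine filter_congr fun n _ => ?_
  unfold FB
  rw [prod_image (fun s _ t _ h => tp_inj h)]
  have e : ∏ t ∈ B, (tp t).eval (n : ℤ) = ((∏ t ∈ B, (2 ^ t * n + 1) : ℕ) : ℤ) := by
    rw [Nat.cast_prod]
    exact prod_congr rfl fun t _ => tp_eval t n
  rw [e, Int.natCast_dvd_natCast]

theorem om_lt (B : Finset ℕ) (p : ℕ) (hp : p.Prime) : om B p < p := by
  unfold om
  have h1 : (range p).filter (fun n : ℕ => p ∣ ∏ t ∈ B, (2 ^ t * n + 1)) ⊆ (range p).erase 0 := by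
    intro n hn
    rw [mem_filter] at hn
    rw [mem_erase]
    refine ⟨fun h => ?_, hn.1⟩
    subst h
    have h2 := hn.2
    simp only [mul_zero, zero_add, prod_const_one] at h2
    have := Nat.le_of_dvd one_pos h2
    have := hp.two_le
    omega
  have h2 := card_le_card h1
  rw [card_erase_of_mem (mem_range.2 hp.pos), card_range] at h2
  have := hp.pos
  omega

theorem pC_eq (B : Finset ℕ) (x : ℕ) : CF (FB B) x = pC B x := by
  unfold CF pC
  refine prod_congr rfl fun p _ => ?_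
  rw [om_eq, FB_card]

/-- the constants -/
theorem const (B : Finset ℕ) : ∃ S : ℝ, 0 < S ∧ Tendsto (pC B) atTop (𝓝 S) := by
  obtain ⟨S, hS, hS0⟩ := Pool.Agent.H559.PV.CF_conv' (FB B) (FB_sys B)
  exact ⟨S, hS0 fun p hp => by rw [om_eq]; exact om_lt B p hp, hS.congr fun x => pC_eq B x⟩

/-- the number of the places of `(x, x + y]` where at least the times `B` are in `A` -/
noncomputable def nB (A : Set ℕ) (B : Finset ℕ) (x y : ℕ) : ℕ :=
  {n : ℕ | x < n ∧ n ≤ x + y ∧ ∀ t ∈ B, 2 ^ t * n + 1 ∈ A}.ncard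

/-- the number of the places of `(x, x + y]` with the exact pattern -/
noncomputable def nE (A : Set ℕ) (T : ℕ) (B : Finset ℕ) (x y : ℕ) : ℕ :=
  {n : ℕ | x < n ∧ n ≤ x + y ∧ ∀ t ≤ T, (2 ^ t * n + 1 ∈ A ↔ t ∈ B)}.ncard

theorem nB_eq (A : Set ℕ) (B : Finset ℕ) (x y : ℕ) : cI A (FB B) x y = nB A B x y := by
  unfold cI nB
  congr 1
  ext n
  simp only [Set.mem_ofPred_eq, FB, mem_image, forall_exists_index, and_imp, forall_apply_eq_imp_iff₂]
  refine and_congr_right fun _ => and_congr_right fun _ => forall₂_congr fun t _ => ?_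
  rw [tp_eval, Int.natAbs_natCast]

/-- the asymptotic formula without exactness -/
theorem nB_lim (z W : ℕ → ℕ) (hz : Limit z) (hW : Cut W) (b : ℕ → ℕ) (hOK : OK z W b) (B : Finset ℕ)
    (S : ℝ) (hS : Tendsto (pC B) atTop (𝓝 S)) (δ ε : ℝ) (hδ : 0 < δ) (hε : 0 < ε) :
    ∀ᶠ x : ℕ in atTop, ∀ y : ℕ, (x : ℝ) ^ δ ≤ y → y ≤ x →
      |(nB (RS z W b) B x y : ℝ) * Real.log x ^ B.card / y - S| ≤ ε := by
  have h1 := Pool.Agent.H559.BI.t_fin Pool.Agent.H559.BI.t_inv (Pool.Agent.H559.BI.t_seq Pool.Agent.H559.BI.t_inv) z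
    W hz hW b hOK (FB B) (FB_sys B) S (hS.congr fun x => (pC_eq B x).symm) δ ε hδ hε
  filter_upwards [h1] with x hx y hy1 hy2
  have h2 := hx y hy1 hy2
  have e1 : ∏ f ∈ FB B, ((f.natDegree : ℝ) * Real.log x) = Real.log x ^ B.card := by
    unfold FB
    rw [prod_image (fun s _ t _ h => tp_inj h)]
    calc ∏ t ∈ B, (((tp t).natDegree : ℝ) * Real.log x) = ∏ _t ∈ B, Real.log x :=
          prod_congr rfl fun t _ => by rw [tp_deg, Nat.cast_one, one_mul]
      _ = Real.log x ^ B.card := prod_const _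
  rw [e1, nB_eq] at h2
  exact h2

theorem fin1 (Q : ℕ → Prop) (x y : ℕ) : {n : ℕ | x < n ∧ n ≤ x + y ∧ Q n}.Finite :=
  (Set.finite_Icc x (x + y)).subset fun _ hn => ⟨hn.1.le, hn.2.1⟩

theorem nE_le (A : Set ℕ) (T : ℕ) (B : Finset ℕ) (hB : ∀ t ∈ B, t ≤ T) (x y : ℕ) : nE A T B x y ≤ nB A B x y := by
  unfold nE nB
  exact Set.ncard_le_ncard (fun n hn => ⟨hn.1, hn.2.1, fun t ht => (hn.2.2 t (hB t ht)).2 ht⟩) (fin1 _ x y)

theorem nB_le (A : Set ℕ) (T : ℕ) (B : Finset ℕ) (x y : ℕ) :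
    nB A B x y ≤ nE A T B x y + ∑ t ∈ (range (T + 1)).filter (· ∉ B), nB A (insert t B) x y := by
  classical
  have h1 : {n : ℕ | x < n ∧ n ≤ x + y ∧ ∀ t ∈ B, 2 ^ t * n + 1 ∈ A} ⊆
      {n : ℕ | x < n ∧ n ≤ x + y ∧ ∀ t ≤ T, (2 ^ t * n + 1 ∈ A ↔ t ∈ B)} ∪
      ⋃ t ∈ (range (T + 1)).filter (· ∉ B), {n : ℕ | x < n ∧ n ≤ x + y ∧ ∀ s ∈ insert t B, 2 ^ s * n + 1 ∈ A} := by
    intro n hn
    obtain ⟨a1, a2, a3⟩ := hn
    by_cases h : ∀ t ≤ T, (2 ^ t * n + 1 ∈ A ↔ t ∈ B)
    · exact Or.inl ⟨a1, a2, h⟩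
    · push Not at h
      obtain ⟨t, ht, h2⟩ := h
      have h3 : 2 ^ t * n + 1 ∈ A ∧ t ∉ B := by
        rcases h2 with h2 | h2
        · exact h2
        · exact absurd (a3 t h2.2) h2.1
      refine Or.inr ?_
      rw [Set.mem_iUnion₂]
      refine ⟨t, mem_filter.2 ⟨mem_range.2 (by omega), h3.2⟩, a1, a2, fun s hs => ?_⟩
      rcases mem_insert.1 hs with h4 | h4
      · rw [h4]
        exact h3.1
      · exact a3 s h4
  unfold nB nE
  have hfin : (⋃ t ∈ (range (T + 1)).filter (· ∉ B), {n : ℕ | x < n ∧ n ≤ x + y ∧ ∀ s ∈ insert t B, 2 ^ s * n + 1 ∈ A}).Finite :=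
    (Set.finite_Icc x (x + y)).subset fun n hn => by
      rw [Set.mem_iUnion₂] at hn
      obtain ⟨t, _, h2⟩ := hn
      exact ⟨h2.1.le, h2.2.1⟩
  refine (Set.ncard_le_ncard h1 ((fin1 _ x y).union hfin)).trans ((Set.ncard_union_le _ _).trans ?_)
  refine Nat.add_le_add_left ?_ _
  exact Finset.set_ncard_biUnion_le _ _

/-- the asymptotic formula for the exact patterns -/
theorem nE_lim (z W : ℕ → ℕ) (hz : Limit z) (hW : Cut W) (b : ℕ → ℕ) (hOK : OK z W b) (T : ℕ) (B : Finset ℕ)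
    (hB : ∀ t ∈ B, t ≤ T) (S : ℝ) (hS : Tendsto (pC B) atTop (𝓝 S)) (δ ε : ℝ) (hδ : 0 < δ) (hε : 0 < ε) :
    ∀ᶠ x : ℕ in atTop, ∀ y : ℕ, (x : ℝ) ^ δ ≤ y → y ≤ x →
      |(nE (RS z W b) T B x y : ℝ) * Real.log x ^ B.card / y - S| ≤ ε := by
  have h1 := nB_lim z W hz hW b hOK B S hS δ (ε / 2) hδ (by positivity)
  have h2 : ∀ᶠ x : ℕ in atTop, ∀ t ∈ (range (T + 1)).filter (· ∉ B), ∀ y : ℕ, (x : ℝ) ^ δ ≤ y → y ≤ x →
      (nB (RS z W b) (insert t B) x y : ℝ) * Real.log x ^ B.card / y ≤ ε / (2 * (T + 1)) := by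
    rw [eventually_all_finset]
    intro t ht
    rw [mem_filter] at ht
    obtain ⟨S', hS0, hS'⟩ := const (insert t B)
    filter_upwards [nB_lim z W hz hW b hOK (insert t B) S' hS' δ 1 hδ one_pos, log_top.eventually_ge_atTop 1,
      log_top.eventually_ge_atTop ((S' + 1) * (2 * (T + 1)) / ε)] with x g1 g2 g3 y hy1 hy2
    have g4 := (abs_le.1 (g1 y hy1 hy2)).2
    have hl : 0 < Real.log x := by linarith
    rw [card_insert_of_notMem ht.2, pow_succ] at g4
    have e1 : (nB (RS z W b) (insert t B) x y : ℝ) * (Real.log x ^ B.card * Real.log x) / y =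
        ((nB (RS z W b) (insert t B) x y : ℝ) * Real.log x ^ B.card / y) * Real.log x := by ring
    rw [e1] at g4
    have hT : (0 : ℝ) < 2 * (T + 1) := by positivity
    rw [div_le_iff₀ hε] at g3
    rw [le_div_iff₀ hT]
    have g5 : ((nB (RS z W b) (insert t B) x y : ℝ) * Real.log x ^ B.card / y) * Real.log x ≤ S' + 1 := by linarith
    have g6 : (((nB (RS z W b) (insert t B) x y : ℝ) * Real.log x ^ B.card / y) * Real.log x) * (2 * (T + 1)) ≤
        (S' + 1) * (2 * (T + 1)) := mul_le_mul_of_nonneg_right g5 hT.le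
    have g7 : Real.log x * (((nB (RS z W b) (insert t B) x y : ℝ) * Real.log x ^ B.card / y) * (2 * (T + 1))) ≤
        Real.log x * ε := by
      calc _ = (((nB (RS z W b) (insert t B) x y : ℝ) * Real.log x ^ B.card / y) * Real.log x) * (2 * (T + 1)) := by ring
        _ ≤ _ := g6.trans g3
    exact le_of_mul_le_mul_left g7 hl
  filter_upwards [h1, h2] with x g1 g2 y hy1 hy2
  have hl : 0 ≤ Real.log x ^ B.card / (y : ℝ) :=
    div_nonneg (pow_nonneg (Real.log_natCast_nonneg x) _) (Nat.cast_nonneg y)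
  have a1 := abs_le.1 (g1 y hy1 hy2)
  have h6 : (nB (RS z W b) B x y : ℝ) ≤ nE (RS z W b) T B x y +
      ∑ t ∈ (range (T + 1)).filter (· ∉ B), (nB (RS z W b) (insert t B) x y : ℝ) := by
    exact_mod_cast nB_le (RS z W b) T B x y
  have h7 := mul_le_mul_of_nonneg_right h6 hl
  rw [add_mul, sum_mul] at h7
  have h8 : ∑ t ∈ (range (T + 1)).filter (· ∉ B), (nB (RS z W b) (insert t B) x y : ℝ) *
      (Real.log x ^ B.card / y) ≤ ε / 2 := by
    calc _ ≤ ∑ _t ∈ (range (T + 1)).filter (· ∉ B), ε / (2 * (T + 1)) := by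
          refine sum_le_sum fun t ht => ?_
          rw [← mul_div_assoc]
          exact g2 t ht y hy1 hy2
      _ = (((range (T + 1)).filter (· ∉ B)).card : ℝ) * (ε / (2 * (T + 1))) := by rw [sum_const, nsmul_eq_mul]
      _ ≤ ((T : ℝ) + 1) * (ε / (2 * (T + 1))) := by
          refine mul_le_mul_of_nonneg_right ?_ (by positivity)
          have := card_filter_le (range (T + 1)) (· ∉ B)
          rw [card_range] at this
          exact_mod_cast this
      _ = ε / 2 := by field_simp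
  have h9 : (nE (RS z W b) T B x y : ℝ) ≤ nB (RS z W b) B x y := by
    exact_mod_cast nE_le (RS z W b) T B hB x y
  have h10 := mul_le_mul_of_nonneg_right h9 hl
  simp only [mul_div_assoc] at a1 ⊢
  rw [abs_le]
  constructor <;> linarith

end Pool.Agent.H559.CC
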