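import Mathlib

set_option autoImplicit false

/-! # Covering times of a Cunningham sequence by primes -/

open Finset

namespace Pool.Agent.H559.CC

theorem dvd_trans_time (q s s' t : ℕ) (h : s' ≡ s [MOD q]) (h1 : q ∣ 2 ^ t * s + 1) : q ∣ 2 ^ t * s' + 1 := by
  have h2 : 2 ^ t * s' + 1 ≡ 2 ^ t * s + 1 [MOD q] := (h.mul_left _).add_right 1
  exact (h2.dvd_iff dvd_rfl).2 h1

/-- a class modulo `q` killing the term at time `t` -/
theorem one_class (q t : ℕ) (hq : q.Prime) (h2 : 2 < q) : ∃ a : ℕ, q ∣ 2 ^ t * a + 1 := by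
  have hc : Nat.Coprime (2 ^ t) q := (Nat.coprime_primes Nat.prime_two hq).2 (by omega) |>.pow_left t
  haveI : Fact q.Prime := ⟨hq⟩
  refine ⟨(-((2 : ZMod q) ^ t)⁻¹).val, ?_⟩
  rw [← ZMod.natCast_eq_zero_iff]
  push_cast
  rw [ZMod.natCast_zmod_val]
  have h3 : (2 : ZMod q) ^ t ≠ 0 := by
    intro h
    have h4 : ((2 ^ t : ℕ) : ZMod q) = 0 := by
      push_cast
      exact h
    rw [ZMod.natCast_eq_zero_iff] at h4
    have h5 := hq.dvd_of_dvd_pow h4
    have := Nat.le_of_dvd (by norm_num) h5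
    omega
  rw [mul_neg, mul_inv_cancel₀ h3]
  ring

/-- a modulus `M` and a class `s` such that for every time of `D` a prime factor `> Y` of `M` kills the term at this time -/
theorem cover (D : Finset ℕ) (Y : ℕ) : ∃ M s : ℕ, 0 < M ∧
    (∀ t ∈ D, ∃ q, q.Prime ∧ Y < q ∧ q ∣ M ∧ q ∣ 2 ^ t * s + 1) ∧
    (∀ q, q.Prime → q ∣ M → Y < q ∧ 2 < q ∧ ∃ t ∈ D, q ∣ 2 ^ t * s + 1) := by
  induction D using Finset.induction with
  | empty =>
    refine ⟨1, 0, one_pos, by simp, fun q hq h => ?_⟩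
    have := Nat.le_of_dvd one_pos h
    have := hq.two_le
    omega
  | insert t D ht ih =>
    obtain ⟨M, s, hM, h1, h2⟩ := ih
    obtain ⟨q, hq1, hq⟩ := Nat.exists_infinite_primes (Y + M + 3)
    have hcop : Nat.Coprime M q := by
      rw [Nat.coprime_comm, hq.coprime_iff_not_dvd]
      intro h
      have := Nat.le_of_dvd hM h
      omega
    obtain ⟨a, ha⟩ := one_class q t hq (by omega)
    obtain ⟨s', e1, e2⟩ := Nat.chineseRemainder hcop s a
    refine ⟨M * q, s', Nat.mul_pos hM hq.pos, ?_, ?_⟩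
    · intro t' ht'
      rcases mem_insert.1 ht' with h | h
      · subst h
        exact ⟨q, hq, by omega, dvd_mul_left _ _, dvd_trans_time q a s' _ e2 ha⟩
      · obtain ⟨p, p1, p2, p3, p4⟩ := h1 t' h
        exact ⟨p, p1, p2, p3.mul_right _, dvd_trans_time p s s' _ (e1.of_dvd p3) p4⟩
    · intro p hp hd
      rcases (hp.dvd_mul).1 hd with h | h
      · obtain ⟨p1, p2, t', p3, p4⟩ := h2 p hp h
        exact ⟨p1, p2, t', mem_insert_of_mem p3, dvd_trans_time p s s' _ (e1.of_dvd h) p4⟩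
      · have hpq : p = q := (Nat.prime_dvd_prime_iff_eq hp hq).1 h
        subst hpq
        exact ⟨by omega, by omega, t, mem_insert_self _ _, dvd_trans_time p a s' _ e2 ha⟩

/-- a prime `> 2 ^ T` divides at most one term with time `≤ T` -/
theorem one_time (q n t t' T : ℕ) (hq : 2 ^ T < q) (ht : t ≤ T) (ht' : t' ≤ T) (hne : t ≠ t')
    (h1 : q ∣ 2 ^ t * n + 1) (h2 : q ∣ 2 ^ t' * n + 1) : False := by
  wlog hlt : t < t' generalizing t t'
  · exact this t' t ht' ht hne.symm h2 h1 (by omega)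
  · obtain ⟨d, hd, rfl⟩ : ∃ d, 0 < d ∧ t' = t + d := ⟨t' - t, by omega, by omega⟩
    have e : 2 ^ d * (2 ^ t * n + 1) = (2 ^ (t + d) * n + 1) + (2 ^ d - 1) := by
      have : 1 ≤ 2 ^ d := Nat.one_le_two_pow
      rw [pow_add]
      zify [this]
      ring
    have h3 : q ∣ (2 ^ (t + d) * n + 1) + (2 ^ d - 1) := by
      rw [← e]
      exact h1.mul_left _
    have h4 := (Nat.dvd_add_right h2).1 h3
    have h5 : 2 ≤ 2 ^ d := by
      calc 2 = 2 ^ 1 := by norm_num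
        _ ≤ 2 ^ d := Nat.pow_le_pow_right (by norm_num) hd
    have h6 := Nat.le_of_dvd (by omega) h4
    have h7 : 2 ^ d ≤ 2 ^ T := Nat.pow_le_pow_right (by norm_num) (by omega)
    omega

/-- no fixed divisor -/
theorem no_fixed (T M s u : ℕ) (B D : Finset ℕ) (hB : ∀ t ∈ B, t ≤ T) (hD : ∀ t ∈ D, t ≤ T) (hBD : Disjoint B D)
    (h2 : ∀ q, q.Prime → q ∣ M → 2 ^ T < q ∧ 2 < q ∧ ∃ t ∈ D, q ∣ 2 ^ t * s + 1) (hu : u ≡ s [MOD M])
    (p : ℕ) (hp : p.Prime) : ∃ r : ℕ, ∀ t ∈ B, ¬ (p : ℤ) ∣ ((2 : ℤ) ^ t * u + 1) + (2 : ℤ) ^ t * M * r := by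
  by_cases hpM : p ∣ M
  · refine ⟨0, fun t ht h => ?_⟩
    obtain ⟨q1, q2, t', ht', q3⟩ := h2 p hp hpM
    have h3 : p ∣ 2 ^ t * u + 1 := by
      have : (p : ℤ) ∣ ((2 ^ t * u + 1 : ℕ) : ℤ) := by
        push_cast
        simpa using h
      exact_mod_cast this
    have h4 := dvd_trans_time p s u t' (hu.of_dvd hpM) q3
    exact one_time p u t t' T q1 (hB t ht) (hD t' ht') (fun h => by
      subst h
      exact (Finset.disjoint_left.1 hBD ht) ht') h3 h4
  · haveI : Fact p.Prime := ⟨hp⟩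
    have hM0 : (M : ZMod p) ≠ 0 := by
      intro h
      rw [ZMod.natCast_eq_zero_iff] at h
      exact hpM h
    refine ⟨(-(u : ZMod p) * (M : ZMod p)⁻¹).val, fun t _ h => ?_⟩
    rw [← ZMod.intCast_zmod_eq_zero_iff_dvd] at h
    push_cast at h
    rw [ZMod.natCast_zmod_val] at h
    have h5 : (2 : ZMod p) ^ t * u + 1 + 2 ^ t * M * (-(u : ZMod p) * (M : ZMod p)⁻¹) = 1 := by
      field_simp
      ring
    rw [h5] at h
    exact one_ne_zero h

end Pool.Agent.H559.CC
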