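import Pool.Agent.H559.GO.Gen
import Pool.Agent.H559.IX.F0ec

set_option autoImplicit false

/-! # Linear forms with random prime values in short windows (after helper32) -/

open Finset MeasureTheory ProbabilityTheory Filter Topology
open Pool.Agent.T2H32.BF (Model V V_pos V_anti V_ratio mertens)
open Pool.Agent.H559.BS (Limit)
open Pool.Agent.H559.HY (Arr evl RS WW box mem_box)
open Pool.Agent.H559.US (FD NC val Mc)
open Pool.Agent.H559.IX

open Pool.Agent.H559.GO.Gen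
open Pool.Agent.H559.IX.Sys (R0_eq)

namespace Pool.Agent.H559.CC

open Classical in
/-- `S_gen` with an arbitrary bound for the leading coefficients -/
theorem genK (c : ℝ) (hc : 1 < c) (k K : ℕ) : ∃ C : ℕ, 1 ≤ C ∧ ∀ z : ℕ → ℕ, Lim z → ∀ (Ω : Type) [MeasurableSpace Ω] (P : Measure Ω)
  (a : ℕ → Ω → ℕ), Model P a → ∀ᵐ ω ∂P, ∀ᶠ Λ : ℕ in atTop, ∀ α β : Fin k → ℤ,
    (∀ i, (|α i| : ℝ) ≤ Real.exp ((Λ : ℝ) ^ 3)) → (∀ i, β i ≠ 0 ∧ |β i| ≤ K) →
    (∀ p : ℕ, p.Prime → ∃ r : ℕ, ∀ i, ¬ (p : ℤ) ∣ α i + β i * r) →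
      ∃ m : ℕ, 0 < m ∧ m ≤ Λ ^ C ∧ ∀ i, (α i + β i * m).natAbs ∈ R0 z c (fun q => a q ω) := by
  obtain ⟨β₀, hβ0, hmain⟩ := Pool.Agent.H559.US.main_ae c hc k 1 (1 / 2) (by norm_num)
  obtain ⟨C, hC⟩ := exists_nat_ge (3 / β₀)
  have hCβ : 3 ≤ (C : ℝ) * β₀ := by
    rw [div_le_iff₀ hβ0] at hC
    exact hC
  have hC1 : 1 ≤ C := by
    rcases Nat.eq_zero_or_pos C with h | h
    · rw [h] at hCβ
      norm_num at hCβ
    · exact h
  refine ⟨C, hC1, fun z hz Ω _ P a hmod => ?_⟩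
  filter_upwards [hmain z hz Ω P a hmod] with ω hω
  have ht : Tendsto (fun Λ : ℕ => Λ ^ C) atTop atTop := tendsto_pow_atTop (by omega)
  have hlog : Tendsto (fun Λ : ℕ => Real.log (Λ : ℝ)) atTop atTop :=
    Real.tendsto_log_atTop.comp tendsto_natCast_atTop_atTop
  filter_upwards [ht.eventually hω, eventually_ge_atTop (K + 1), hlog.eventually_ge_atTop (K : ℝ)]
    with Λ hΛ hΛ1 hΛ2 α β hα hβ hfd
  have hL13 : (K : ℝ) + 1 ≤ Λ := by exact_mod_cast hΛ1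
  have hK0 : (0 : ℝ) ≤ K := Nat.cast_nonneg K
  have hL1 : (1 : ℝ) ≤ Λ := by linarith
  have hL0 : (0 : ℝ) < Λ := by linarith
  have hexp : Real.exp ((Λ : ℝ) ^ 3) ≤ Real.exp (((Λ ^ C : ℕ) : ℝ) ^ β₀) := by
    apply Real.exp_le_exp.mpr
    push_cast
    rw [← Real.rpow_natCast (Λ : ℝ) C, ← Real.rpow_mul hL0.le, ← Real.rpow_natCast (Λ : ℝ) 3]
    apply Real.rpow_le_rpow_of_exponent_le hL1
    exact_mod_cast hCβ
  have hbd : ∀ t : ℤ, (|t| : ℝ) ≤ Real.exp ((Λ : ℝ) ^ 3) → |t| ≤ (Mc β₀ (Λ ^ C) : ℤ) := by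
    intro t ht
    have h1 : t.natAbs ≤ Mc β₀ (Λ ^ C) := by
      unfold Mc
      apply Nat.le_floor
      refine le_trans ?_ hexp
      refine le_trans (le_of_eq ?_) ht
      rw [Nat.cast_natAbs]
      push_cast
      rfl
    rw [← Int.natCast_natAbs]
    exact_mod_cast h1
  have h12 : (K : ℝ) ≤ Real.exp ((Λ : ℝ) ^ 3) := by
    have h1 := Real.add_one_le_exp ((Λ : ℝ) ^ 3)
    have h2 : (Λ : ℝ) ^ 1 ≤ (Λ : ℝ) ^ 3 := pow_le_pow_right₀ hL1 (by norm_num)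
    rw [pow_one] at h2
    linarith
  have hbox : sy α β ∈ box k 1 (Mc β₀ (Λ ^ C)) := by
    rw [mem_box]
    intro i j
    have b1 := hbd (α i) (hα i)
    have b2 := hbd (β i) (by
      refine le_trans ?_ h12
      have h3 : ((|β i| : ℤ) : ℝ) ≤ ((K : ℤ) : ℝ) := by exact_mod_cast (hβ i).2
      push_cast at h3
      exact h3)
    fin_cases j
    · exact b1
    · exact b2
  have hFD : ∀ p : ℕ, p.Prime → FD (sy α β) p := by
    intro p hp
    obtain ⟨r, hr⟩ := hfd p hp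
    refine ⟨r, fun i => ?_⟩
    rw [evl_sy]
    exact hr i
  have hNC : ∀ p : ℕ, p.Prime → Real.log ((Λ ^ C : ℕ) : ℝ) < p → NC (sy α β) p := by
    intro p hp hlp i
    refine ⟨1, by decide, ?_⟩
    show ¬ (p : ℤ) ∣ β i
    intro hdvd
    have h1 : (K : ℝ) < p := by
      refine lt_of_le_of_lt ?_ hlp
      push_cast
      rw [Real.log_pow]
      have h2 : (1 : ℝ) ≤ C := by exact_mod_cast hC1
      have h3 : 1 * Real.log (Λ : ℝ) ≤ C * Real.log (Λ : ℝ) :=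
        mul_le_mul_of_nonneg_right h2 (by linarith)
      linarith
    have h2 : K < p := by exact_mod_cast h1
    have h3 := Int.le_of_dvd (abs_pos.2 (hβ i).1) ((dvd_abs _ _).2 hdvd)
    have h4 := (hβ i).2
    omega
  have h := hΛ (sy α β) hbox hFD hNC
  have hNpos : 0 < ((Λ ^ C : ℕ) : ℝ) ^ ((1 : ℝ) - 1 / 2) := by
    apply Real.rpow_pos_of_pos
    push_cast
    positivity
  have hcard := lt_of_lt_of_le hNpos h
  have hcard' := Nat.cast_pos.mp hcard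
  obtain ⟨m, hm⟩ := card_pos.mp hcard'
  rw [mem_filter, mem_Ioc] at hm
  obtain ⟨⟨hm0, hm1⟩, hval⟩ := hm
  refine ⟨m, hm0, by simpa using hm1, fun i => ?_⟩
  have h0 := hval i
  unfold Pool.Agent.H559.US.val at h0
  rw [evl_sy] at h0
  rw [R0_eq]
  exact h0

end Pool.Agent.H559.CC
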