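import Pool.Agent.H559.CC.Gen
import Pool.Agent.H559.CC.Crt

set_option autoImplicit false

/-! # Patterns of Cunningham sequences in the random primes -/

open Finset MeasureTheory ProbabilityTheory Filter Topology
open Pool.Agent.T2H32.BF (Model V V_pos V_anti)
open Pool.Agent.H559.IX

namespace Pool.Agent.H559.CC

theorem z_top (z : ℕ → ℕ) (hz : Lim z) : Tendsto z atTop atTop := by
  rw [tendsto_atTop]
  intro m
  filter_upwards [hz.2.eventually_lt_const (show (1 : ℝ) < 2 by norm_num), F0ec.log_atTop.eventually_ge_atTop (2 / V m)] with v h5 h6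
  by_contra h7
  push Not at h7
  have h8 : V m ≤ V (z v) := V_anti h7.le
  have h9 := V_pos m
  rw [div_le_iff₀ h9] at h6
  have h10 : 0 ≤ Real.log v := Real.log_natCast_nonneg v
  nlinarith

/-- the large elements have no small prime factors -/
theorem rough (z : ℕ → ℕ) (hz : Lim z) (c : ℝ) (hc : 1 < c) (y : ℕ) : ∃ x0 : ℕ, ∀ b : ℕ → ℕ, ∀ v ∈ R0 z c b, x0 < v →
    ∀ q : ℕ, q.Prime → q ≤ y → ¬ q ∣ v := by
  have hW : Tendsto (fun v : ℕ => Real.log (v : ℝ) ^ c) atTop atTop :=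
    (tendsto_rpow_atTop (by linarith)).comp F0ec.log_atTop
  have h := ((z_top z hz).eventually_ge_atTop y).and (hW.eventually_ge_atTop (y : ℝ))
  obtain ⟨x0, hx0⟩ := eventually_atTop.1 h
  refine ⟨x0, fun b v hv hlt q hq hqy hd => ?_⟩
  obtain ⟨h1, h2⟩ := hx0 v hlt.le
  have h3 := hv.2 q (by omega) hq
  have h4 : (q : ℝ) ≤ Real.log v ^ c := le_trans (by exact_mod_cast hqy) h2
  rw [if_pos h4] at h3
  exact h3 (Nat.dvd_iff_mod_eq_zero.1 hd)

/-- the start of the progression -/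
theorem start (M s x : ℕ) (hM : 0 < M) : ∃ u, x ≤ u ∧ u < x + M ∧ u ≡ s [MOD M] := by
  refine ⟨x + (s + (M - 1) * x) % M, by omega, by have := Nat.mod_lt (s + (M - 1) * x) hM; omega, ?_⟩
  have h1 : (s + (M - 1) * x) % M ≡ s + (M - 1) * x [MOD M] := Nat.mod_modEq _ _
  have h2 : x + (s + (M - 1) * x) % M ≡ x + (s + (M - 1) * x) [MOD M] := h1.add_left x
  have h3 : x + (s + (M - 1) * x) = s + M * x := by
    obtain ⟨d, rfl⟩ : ∃ d, M = d + 1 := ⟨M - 1, by omega⟩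
    rw [Nat.add_sub_cancel]
    ring
  rw [h3] at h2
  refine h2.trans ?_
  have h4 : s + M * x ≡ s + 0 [MOD M] := Nat.ModEq.add_left s ((Nat.modEq_zero_iff_dvd).2 (dvd_mul_right _ _))
  simpa using h4

theorem patterns (c : ℝ) (hc : 1 < c) (T : ℕ) (B : Finset ℕ) : ∃ C : ℕ, ∀ z : ℕ → ℕ, Lim z →
    ∀ (Ω : Type) [MeasurableSpace Ω] (P : Measure Ω) (a : ℕ → Ω → ℕ), Model P a → ∀ᵐ ω ∂P, ∀ᶠ x : ℕ in atTop,
      ∃ n : ℕ, x < n ∧ (n : ℝ) ≤ x + Real.log x ^ C ∧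
        ∀ t ≤ T, (2 ^ t * n + 1 ∈ R0 z c (fun q => a q ω) ↔ t ∈ B) := by
  classical
  obtain ⟨B', hB'⟩ : ∃ B' : Finset ℕ, B' = (range (T + 1)).filter (· ∈ B) := ⟨_, rfl⟩
  obtain ⟨D, hD⟩ : ∃ D : Finset ℕ, D = (range (T + 1)).filter (· ∉ B) := ⟨_, rfl⟩
  have hBT : ∀ t ∈ B', t ≤ T := fun t ht => by
    rw [hB', mem_filter, mem_range] at ht
    omega
  have hDT : ∀ t ∈ D, t ≤ T := fun t ht => by
    rw [hD, mem_filter, mem_range] at ht
    omega
  have hBD : Disjoint B' D := by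
    rw [Finset.disjoint_left]
    intro t h1 h2
    rw [hB', mem_filter] at h1
    rw [hD, mem_filter] at h2
    exact h2.2 h1.2
  obtain ⟨M, s, hM, h1, h2⟩ := cover D (2 ^ T)
  set e := B'.orderEmbOfFin rfl with he
  obtain ⟨C0, hC0, hg⟩ := genK c hc B'.card (2 ^ T * M)
  refine ⟨2 * C0 + 1, fun z hz Ω _ P a hP => ?_⟩
  obtain ⟨x0, hx0⟩ := rough z hz c hc M
  filter_upwards [hg z hz Ω P a hP] with ω g
  filter_upwards [F0ec.La_atTop.eventually g, F0ec.La_le, eventually_ge_atTop (2 ^ T * (M + 1) + 1 + x0),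
    F0ec.log_atTop.eventually_ge_atTop (2 * M : ℝ)] with x g1 g2 g3 g4
  have hT1 : 1 ≤ 2 ^ T := Nat.one_le_two_pow
  have hx1 : 1 ≤ x := by omega
  have hx0' : (0 : ℝ) < x := by exact_mod_cast hx1
  have hge := F0ec.La_ge x
  have hΛ6 : 6 ≤ F0ec.La x := by
    unfold F0ec.La
    omega
  set Λ := F0ec.La x with hΛ
  have hL1 : (1 : ℝ) ≤ Λ := by exact_mod_cast (by omega : 1 ≤ Λ)
  obtain ⟨u, u1, u2, u3⟩ := start M s x hM
  have hsmall : 2 ^ T * u + 1 ≤ x ^ 2 := by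
    have e1 : 2 ^ T * u ≤ 2 ^ T * (x + M) := Nat.mul_le_mul_left _ (by omega)
    have e2 : (2 ^ T * (M + 1) + 1) * x ≤ x * x := Nat.mul_le_mul_right _ (by omega)
    have e3 : 2 ^ T * M * 1 ≤ 2 ^ T * M * x := Nat.mul_le_mul_left _ hx1
    nlinarith
  have hexp : ((x ^ 2 : ℕ) : ℝ) ≤ Real.exp ((Λ : ℝ) ^ 3) := by
    have e1 : Real.exp (Real.log x + Real.log x) ≤ Real.exp ((Λ : ℝ) ^ 3) := by
      refine Real.exp_le_exp.2 ?_
      have h5 : (Λ : ℝ) ≤ (Λ : ℝ) ^ 3 := by nlinarith [sq_nonneg (Λ : ℝ)]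
      linarith
    rw [Real.exp_add, Real.exp_log hx0'] at e1
    push_cast
    rw [sq]
    exact e1
  have hfd : ∀ p : ℕ, p.Prime → ∃ r : ℕ, ∀ i : Fin B'.card,
      ¬ (p : ℤ) ∣ ((2 : ℤ) ^ (e i) * u + 1) + (2 : ℤ) ^ (e i) * M * r := by
    intro p hp
    obtain ⟨r, hr⟩ := no_fixed T M s u B' D hBT hDT hBD h2 u3 p hp
    exact ⟨r, fun i => hr (e i) (B'.orderEmbOfFin_mem rfl i)⟩
  obtain ⟨m, m1, m2, m3⟩ := g1 (fun i => (2 : ℤ) ^ (e i) * u + 1) (fun i => (2 : ℤ) ^ (e i) * M) (by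
    intro i
    have hi := hBT (e i) (B'.orderEmbOfFin_mem rfl i)
    have e1 : |(2 : ℤ) ^ (e i) * u + 1| ≤ ((x ^ 2 : ℕ) : ℤ) := by
      rw [abs_of_nonneg (by positivity)]
      have e2 : 2 ^ (e i) * u + 1 ≤ x ^ 2 := by
        have e3 : 2 ^ (e i) * u ≤ 2 ^ T * u := Nat.mul_le_mul_right _ (Nat.pow_le_pow_right (by norm_num) hi)
        omega
      exact_mod_cast e2
    have e4 : ((|(2 : ℤ) ^ (e i) * u + 1| : ℤ) : ℝ) ≤ (((x ^ 2 : ℕ) : ℤ) : ℝ) := by exact_mod_cast e1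
    have e5 : (((x ^ 2 : ℕ) : ℤ) : ℝ) = ((x ^ 2 : ℕ) : ℝ) := by norm_cast
    rw [e5] at e4
    exact_mod_cast e4.trans hexp) (by
    intro i
    have hi := hBT (e i) (B'.orderEmbOfFin_mem rfl i)
    have hMz : (0 : ℤ) < M := by exact_mod_cast hM
    refine ⟨by positivity, ?_⟩
    rw [abs_of_nonneg (by positivity)]
    have e3 : 2 ^ (e i) * M ≤ 2 ^ T * M := Nat.mul_le_mul_right _ (Nat.pow_le_pow_right (by norm_num) hi)
    exact_mod_cast e3) hfd
  refine ⟨u + M * m, ?_, ?_, ?_⟩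
  · have : 1 * 1 ≤ M * m := Nat.mul_le_mul hM m1
    omega
  · have e1 : u + M * m ≤ x + 2 * M * Λ ^ C0 := by
      have e2 : M * m ≤ M * Λ ^ C0 := Nat.mul_le_mul_left _ m2
      have e3 : M * 1 ≤ M * Λ ^ C0 := Nat.mul_le_mul_left _ (Nat.one_le_pow _ _ (by omega))
      have e4 : 2 * M * Λ ^ C0 = M * Λ ^ C0 + M * Λ ^ C0 := by ring
      omega
    have e2 : ((u + M * m : ℕ) : ℝ) ≤ ((x + 2 * M * Λ ^ C0 : ℕ) : ℝ) := by exact_mod_cast e1
    refine e2.trans ?_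
    push_cast
    have e3 : (Λ : ℝ) ^ C0 ≤ (Real.log x ^ 2) ^ C0 := pow_le_pow_left₀ (Nat.cast_nonneg _) g2 C0
    rw [← pow_mul] at e3
    have e4 : (0 : ℝ) ≤ (Λ : ℝ) ^ C0 := by positivity
    have e5 : 2 * (M : ℝ) * (Λ : ℝ) ^ C0 ≤ Real.log x * Real.log x ^ (2 * C0) :=
      mul_le_mul g4 e3 e4 (by
        have : (0 : ℝ) ≤ M := Nat.cast_nonneg M
        linarith)
    rw [pow_succ, mul_comm (Real.log x ^ (2 * C0))]
    linarith
  · intro t ht
    by_cases htB : t ∈ B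
    · have htB' : t ∈ B' := by
        rw [hB', mem_filter, mem_range]
        exact ⟨by omega, htB⟩
      refine ⟨fun _ => htB, fun _ => ?_⟩
      have hr : t ∈ Set.range e := by
        rw [he, range_orderEmbOfFin]
        exact htB'
      obtain ⟨i, hi⟩ := hr
      have hv := m3 i
      rw [hi] at hv
      have e1 : ((2 : ℤ) ^ t * u + 1 + (2 : ℤ) ^ t * M * m).natAbs = 2 ^ t * (u + M * m) + 1 := by
        have : (2 : ℤ) ^ t * u + 1 + (2 : ℤ) ^ t * M * m = ((2 ^ t * (u + M * m) + 1 : ℕ) : ℤ) := by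
          push_cast
          ring
        rw [this, Int.natAbs_natCast]
      rw [e1] at hv
      exact hv
    · have htD : t ∈ D := by
        rw [hD, mem_filter, mem_range]
        exact ⟨by omega, htB⟩
      refine ⟨fun hmem => ?_, fun h => absurd h htB⟩
      exfalso
      obtain ⟨q, q1, q2, q3, q4⟩ := h1 t htD
      have hn : u + M * m ≡ s [MOD q] := by
        have e1 : u ≡ s [MOD q] := u3.of_dvd q3
        have e2 : M * m ≡ 0 [MOD q] := (Nat.modEq_zero_iff_dvd).2 (q3.mul_right _)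
        simpa using e1.add e2
      have hd := dvd_trans_time q s (u + M * m) t hn q4
      refine hx0 (fun q => a q ω) _ hmem ?_ q q1 (Nat.le_of_dvd hM q3) hd
      have e1 : 1 * (u + M * m) ≤ 2 ^ t * (u + M * m) := Nat.mul_le_mul_right _ Nat.one_le_two_pow
      omega

/-- complete chains of exact length `k` -/
theorem chains (c : ℝ) (hc : 1 < c) (k : ℕ) (hk : 1 ≤ k) : ∃ C : ℕ, ∀ z : ℕ → ℕ, Lim z →
    ∀ (Ω : Type) [MeasurableSpace Ω] (P : Measure Ω) (a : ℕ → Ω → ℕ), Model P a → ∀ᵐ ω ∂P, ∀ᶠ x : ℕ in atTop,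
      ∃ p : ℕ, x < p ∧ (p : ℝ) ≤ x + Real.log x ^ C ∧
        (∀ i < k, 2 ^ i * (p - 1) + 1 ∈ R0 z c (fun q => a q ω)) ∧ 2 ^ k * (p - 1) + 1 ∉ R0 z c (fun q => a q ω) ∧
        ∀ q ∈ R0 z c (fun q => a q ω), 2 * q - 1 ≠ p := by
  obtain ⟨C, hC⟩ := patterns c hc (k + 1) (Finset.Icc 1 k)
  refine ⟨C + 1, fun z hz Ω _ P a hP => ?_⟩
  have hhalf : Tendsto (fun x : ℕ => x / 2) atTop atTop :=
    tendsto_atTop.2 fun b => by
      filter_upwards [eventually_ge_atTop (2 * b)] with x hx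
      omega
  filter_upwards [hC z hz Ω P a hP] with ω g
  filter_upwards [hhalf.eventually g, F0ec.log_atTop.eventually_ge_atTop (3 : ℝ), eventually_ge_atTop 2] with x g1 g2 g3
  obtain ⟨n, n1, n2, n3⟩ := g1
  have hlog : Real.log ((x / 2 : ℕ) : ℝ) ≤ Real.log x := by
    refine Real.log_le_log (by exact_mod_cast (by omega : 0 < x / 2)) (by exact_mod_cast Nat.div_le_self x 2)
  have hlog0 : 0 ≤ Real.log ((x / 2 : ℕ) : ℝ) := Real.log_natCast_nonneg _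
  have hx2 : 2 * ((x / 2 : ℕ) : ℝ) ≤ x := by exact_mod_cast (by omega : 2 * (x / 2) ≤ x)
  refine ⟨2 * n + 1, by omega, ?_, ?_, ?_, ?_⟩
  · push_cast
    have e1 : Real.log ((x / 2 : ℕ) : ℝ) ^ C ≤ Real.log x ^ C := pow_le_pow_left₀ hlog0 hlog C
    have e2 : (1 : ℝ) ≤ Real.log x ^ C := one_le_pow₀ (by linarith)
    have e3 : 3 * Real.log x ^ C ≤ Real.log x * Real.log x ^ C := mul_le_mul_of_nonneg_right g2 (by linarith)
    rw [pow_succ, mul_comm (Real.log x ^ C)]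
    linarith
  · intro i hi
    have h := (n3 (i + 1) (by omega)).2 (Finset.mem_Icc.2 ⟨by omega, by omega⟩)
    have e : 2 ^ i * (2 * n + 1 - 1) + 1 = 2 ^ (i + 1) * n + 1 := by
      rw [Nat.add_sub_cancel, pow_succ]
      ring
    rw [e]
    exact h
  · intro hmem
    have e : 2 ^ k * (2 * n + 1 - 1) + 1 = 2 ^ (k + 1) * n + 1 := by
      rw [Nat.add_sub_cancel, pow_succ]
      ring
    rw [e] at hmem
    have := (n3 (k + 1) le_rfl).1 hmem
    rw [Finset.mem_Icc] at this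
    omega
  · intro q hq he
    have e : q = 2 ^ 0 * n + 1 := by
      rw [pow_zero]
      omega
    rw [e] at hq
    have := (n3 0 (by omega)).1 hq
    rw [Finset.mem_Icc] at this
    omega

end Pool.Agent.H559.CC
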